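import Pool.Agent.Lib.MP_094079_nt.FOdd

/-! The multiples of four in the two residue classes. -/
namespace Pool.Agent.Lib.MP_094079_nt

set_option maxRecDepth 100000

/-- reduction: numbers not divisible by four, and four times the two classes -/
theorem uni_of {a b c : ℤ} {N : ℕ}
    (h1 : ∀ n, 0 < n → n % 4 ≠ 0 → N * n % 56 ≠ 15 → N * n % 56 ≠ 47 → Rp a b c n)
    (h2 : ∀ n, 0 < n → (N * n % 56 = 15 ∨ N * n % 56 = 47) → Rp a b c (4 * n)) :
    ∀ n, 0 < n → N * n % 56 ≠ 15 → N * n % 56 ≠ 47 → Rp a b c n := by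
  intro n
  induction n using Nat.strong_induction_on with
  | _ n ih =>
    intro hn e1 e2
    by_cases h4 : n % 4 = 0
    · obtain ⟨k, rfl⟩ := Nat.dvd_of_mod_eq_zero h4
      by_cases h : N * k % 56 = 15 ∨ N * k % 56 = 47
      · exact h2 k (by omega) h
      · exact rp_four (ih k (by omega) (by omega) (fun e => h (Or.inl e)) fun e => h (Or.inr e))
    · exact h1 n hn h4 e1 e2

theorem uni_pickf : ∀ r < 168, (3 * r % 56 = 15 ∨ 3 * r % 56 = 47) →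
    ∃ x < 21, Pk 21 21 3 (3 * (4 * r)) 0 x := by decide +kernel

theorem uni_fourf (n : ℕ) (hn : 0 < n) (e : 3 * n % 56 = 15 ∨ 3 * n % 56 = 47) :
    Rp 1 1 (-1) (4 * n) := by
  by_cases hX : n ≤ 1050000
  · exact rp_four (brute_111 n hn hX (by omega))
  obtain ⟨x, -, hp⟩ := uni_pickf (n % 168) (Nat.mod_lt _ (by norm_num)) (by omega)
  have hg := goal_of_pk okf allf (kp := 1) (Md := 21) (t := 3 * (4 * n)) (j := 0) (x := x)
    (by decide) (by decide) (by decide) rfl (by decide)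
    (hp.mod (((Nat.mod_modEq n 168).mul_left 4).mul_left 3))
    (by show (3 * 64 ^ 2 + 1) * 4 ^ 0 ≤ _; omega) (by show 122 + 4 ^ 0 < _; omega) (by simp)
  refine rp_goal (M := 3) (k := 0) hg rfl (by norm_num) (Or.inl rfl) ?_ ?_ ?_
  · push_cast; ring
  · ring
  · intro v h1 h2
    have h1 : 1 * (2 : ℤ) ^ 0 ≤ (-1) * v.imI + 1 * v.imJ + 0 * v.imK := h1
    have h2 : 0 * (2 : ℤ) ^ 0 ≤ 1 * v.imI + 0 * v.imJ + 1 * v.imK := h2
    exact ⟨by linarith, by linarith, Or.inr (by linarith)⟩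

theorem uni111 (n : ℕ) (hn : 0 < n) (e1 : 3 * n % 56 ≠ 15) (e2 : 3 * n % 56 ≠ 47) :
    Rp 1 1 (-1) n := by
  refine uni_of (N := 3) (fun n hn h4 e1 e2 => ?_) uni_fourf n hn e1 e2
  by_cases hX : n ≤ 1050000
  · exact brute_111 n hn hX h4
  exact bigf n (by omega) h4 e1 e2

theorem uni_pickg : ∀ r < 504, (9 * r % 56 = 15 ∨ 9 * r % 56 = 47) →
    ∃ x < 63, Pk 63 21 9 (9 * (4 * r)) 0 x := by decide +kernel

theorem uni_fourg (n : ℕ) (hn : 0 < n) (e : 9 * n % 56 = 15 ∨ 9 * n % 56 = 47) :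
    Rp 1 2 (-2) (4 * n) := by
  by_cases hX : n ≤ 350000
  · exact rp_four (brute_122 n hn hX (by omega))
  obtain ⟨x, -, hp⟩ := uni_pickg (n % 504) (Nat.mod_lt _ (by norm_num)) (by omega)
  have hg := goal_of_pk okg allg (kp := 2) (Md := 63) (t := 9 * (4 * n)) (j := 0) (x := x)
    (by decide) (by decide) (by decide) rfl (by decide)
    (hp.mod (((Nat.mod_modEq n 504).mul_left 4).mul_left 9))
    (by show (3 * 64 ^ 2 + 1) * 4 ^ 0 ≤ _; omega) (by show 4325 + 4 ^ 0 < _; omega) (by simp)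
  refine rp_goal (M := 9) (k := 0) hg rfl (by norm_num) (Or.inl rfl) ?_ ?_ ?_
  · push_cast; ring
  · ring
  · intro v h1 h2
    have h1 : 2 * (2 : ℤ) ^ 0 ≤ (-2) * v.imI + 2 * v.imJ + 0 * v.imK := h1
    have h2 : 1 * (2 : ℤ) ^ 0 ≤ 1 * v.imI + 0 * v.imJ + 2 * v.imK := h2
    exact ⟨by linarith, by linarith, Or.inr (by linarith)⟩

theorem uni122 (n : ℕ) (hn : 0 < n) (e1 : 9 * n % 56 ≠ 15) (e2 : 9 * n % 56 ≠ 47) :
    Rp 1 2 (-2) n := by
  refine uni_of (N := 9) (fun n hn h4 e1 e2 => ?_) uni_fourg n hn e1 e2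
  by_cases hX : n ≤ 350000
  · exact brute_122 n hn hX h4
  exact bigg n (by omega) h4 e1 e2

theorem uni_pickh : ∀ r < 504, (9 * r % 56 = 15 ∨ 9 * r % 56 = 47) →
    ∃ x < 63, Pk 63 21 9 (9 * (4 * r)) 0 x := by decide +kernel

theorem uni_fourh (n : ℕ) (hn : 0 < n) (e : 9 * n % 56 = 15 ∨ 9 * n % 56 = 47) :
    Rp 2 (-2) (-1) (4 * n) := by
  by_cases hX : n ≤ 350000
  · exact rp_four (brute_221 n hn hX (by omega))
  obtain ⟨x, -, hp⟩ := uni_pickh (n % 504) (Nat.mod_lt _ (by norm_num)) (by omega)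
  have hg := goal_of_pk okh allh (kp := 2) (Md := 63) (t := 9 * (4 * n)) (j := 0) (x := x)
    (by decide) (by decide) (by decide) rfl (by decide)
    (hp.mod (((Nat.mod_modEq n 504).mul_left 4).mul_left 9))
    (by show (3 * 64 ^ 2 + 1) * 4 ^ 0 ≤ _; omega) (by show 4325 + 4 ^ 0 < _; omega) (by simp)
  refine rp_goal (M := 9) (k := 0) hg rfl (by norm_num) (Or.inl rfl) ?_ ?_ ?_
  · push_cast; ring
  · ring
  · intro v h1 h2
    have h1 : 2 * (2 : ℤ) ^ 0 ≤ 2 * v.imI + 0 * v.imJ + 1 * v.imK := h1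
    have h2 : 1 * (2 : ℤ) ^ 0 ≤ 0 * v.imI + 2 * v.imJ + (-2) * v.imK := h2
    exact ⟨by linarith, by linarith, Or.inr (by linarith)⟩

theorem uni221 (n : ℕ) (hn : 0 < n) (e1 : 9 * n % 56 ≠ 15) (e2 : 9 * n % 56 ≠ 47) :
    Rp 2 (-2) (-1) n := by
  refine uni_of (N := 9) (fun n hn h4 e1 e2 => ?_) uni_fourh n hn e1 e2
  by_cases hX : n ≤ 350000
  · exact brute_221 n hn hX h4
  exact bigh n (by omega) h4 e1 e2

theorem uni_picki : ∀ r < 280, (5 * r % 56 = 15 ∨ 5 * r % 56 = 47) →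
    ∃ x < 35, Pk 35 35 5 (5 * (4 * r)) 0 x := by decide +kernel

theorem uni_fouri (n : ℕ) (hn : 0 < n) (e : 5 * n % 56 = 15 ∨ 5 * n % 56 = 47) :
    Rp 2 (-1) 0 (4 * n) := by
  by_cases hX : n ≤ 630000
  · exact rp_four (brute_210 n hn hX (by omega))
  obtain ⟨x, -, hp⟩ := uni_picki (n % 280) (Nat.mod_lt _ (by norm_num)) (by omega)
  have hg := goal_of_pk oki alli (kp := 1) (Md := 35) (t := 5 * (4 * n)) (j := 0) (x := x)
    (by decide) (by decide) (by decide) rfl (by decide)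
    (hp.mod (((Nat.mod_modEq n 280).mul_left 4).mul_left 5))
    (by show (3 * 64 ^ 2 + 1) * 4 ^ 0 ≤ _; omega) (by show 619 + 4 ^ 0 < _; omega) (by simp)
  refine rp_goal (M := 5) (k := 0) hg rfl (by norm_num) (Or.inl rfl) ?_ ?_ ?_
  · push_cast; ring
  · ring
  · intro v h1 h2
    have h1 : 1 * (2 : ℤ) ^ 0 ≤ 2 * v.imI + 0 * v.imJ + 0 * v.imK := h1
    have h2 : 1 * (2 : ℤ) ^ 0 ≤ 2 * v.imI + 0 * v.imJ + 0 * v.imK := h2
    exact ⟨by linarith, by linarith, Or.inl rfl⟩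

theorem uni210 (n : ℕ) (hn : 0 < n) (e1 : 5 * n % 56 ≠ 15) (e2 : 5 * n % 56 ≠ 47) :
    Rp 2 (-1) 0 n := by
  refine uni_of (N := 5) (fun n hn h4 e1 e2 => ?_) uni_fouri n hn e1 e2
  by_cases hX : n ≤ 630000
  · exact brute_210 n hn hX h4
  exact bigi n (by omega) h4 e1 e2

end Pool.Agent.Lib.MP_094079_nt
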