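import Pool.Agent.Results.MP_094079_nt.SevenForms

/-! The statement for seven forms contains the two earlier statements. -/
namespace Pool.Agent.Lib.MP_094079_nt.Uni

open Pool.Agent.Results.MP_094079_nt

theorem implies_three (a b c : ℤ)
    (h : (a, b, c) ∈ ({(1, 1, -2), (1, 2, -1), (4, -2, -1)} : Set (ℤ × ℤ × ℤ)))
    (n : ℕ) (hn : 0 < n) :
    ∃ x y z w k : ℕ, n = x ^ 2 + y ^ 2 + z ^ 2 + w ^ 2 ∧
      a * (x : ℤ) + b * (y : ℤ) + c * (z : ℤ) = 2 ^ k := by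
  simp only [Set.mem_insert_iff, Set.mem_singleton_iff, Prod.mk.injEq] at h
  rcases h with ⟨rfl, rfl, rfl⟩ | ⟨rfl, rfl, rfl⟩ | ⟨rfl, rfl, rfl⟩ <;>
    exact SevenForms.result _ _ _ (by simp) n hn (by omega) (by omega)

theorem implies_odd (a b c : ℤ)
    (h : (a, b, c) ∈ ({(1, 1, -1), (1, 2, -2), (2, -2, -1), (2, -1, 0)} : Set (ℤ × ℤ × ℤ)))
    (n : ℕ) (hn : 0 < n)
    (he : ∀ j l : ℕ, (a ^ 2 + b ^ 2 + c ^ 2) * (n : ℤ) ≠ 4 ^ j * (56 * (l : ℤ) + 15) ∧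
      (a ^ 2 + b ^ 2 + c ^ 2) * (n : ℤ) ≠ 4 ^ j * (56 * (l : ℤ) + 47)) :
    ∃ x y z w k : ℕ, n = x ^ 2 + y ^ 2 + z ^ 2 + w ^ 2 ∧
      a * (x : ℤ) + b * (y : ℤ) + c * (z : ℤ) = 2 ^ k := by
  have h0 : (0 : ℤ) ≤ (a ^ 2 + b ^ 2 + c ^ 2) * (n : ℤ) := by positivity
  obtain ⟨t, ht⟩ := Int.eq_ofNat_of_zero_le h0
  obtain ⟨h1, h2⟩ := he 0 (t / 56)
  rw [ht, pow_zero, one_mul] at h1 h2
  refine SevenForms.result a b c ?_ n hn (by rw [ht]; omega) (by rw [ht]; omega)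
  simp only [Set.mem_insert_iff, Set.mem_singleton_iff, Prod.mk.injEq] at h
  rcases h with ⟨rfl, rfl, rfl⟩ | ⟨rfl, rfl, rfl⟩ | ⟨rfl, rfl, rfl⟩ | ⟨rfl, rfl, rfl⟩ <;> simp

end Pool.Agent.Lib.MP_094079_nt.Uni
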